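import Pool.Agent.helper14.NS.Q68b.PZ

/-!
Generated: certificates.
-/

namespace Pool.Agent.helper14.NS.Q68b

open Pool.Agent.helper31.IA (Z)
open Pool.Agent.helper31.IX (Op XOps runX Cov CovD cov_split covD_split)
open Pool.Agent.helper31.IC (TD)
open Pool.Agent.helper63.RG (reloc)
open Pool.Agent.helper63.NF hiding TD
open Pool.Agent.helper4.NS
open Pool.Agent.helper14.CF (xE covD_E)
open Pool.Agent.helper14.NR (share)

mutual
theorem Z_c0_t3 : CovD 1 gZ [(13582204928, 2587885568), (412316860416, 137438953472), (59643002880, 59643002880)] :=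
  covD_E kZ_eq (.n 2 (.n 1 (.n 1 (.n 2 (.l 0) (.l 0)) (.n 2 (.l 0) (.l 0))) (.n 2 (.l 0) (.l 0))) (.n 1 (.n 1 (.n 2 (.l 0) (.l 0)) (.n 2 (.l 0) (.l 0))) (.n 2 (.l 0) (.l 0))))
    [(13582204928, 2587885568), (412316860416, 137438953472), (59643002880, 59643002880)] rfl (by decide +kernel)
theorem Z_c0_t4 : CovD 1 gZ [(13582204928, 2587885568), (412316860416, 137438953472), (178929008640, 59643002880)] :=
  covD_E kZ_eq (.n 2 (.n 1 (.n 0 (.n 2 (.l 0) (.l 0)) (.n 1 (.l 0) (.l 0))) (.n 2 (.l 0) (.l 0))) (.n 1 (.n 0 (.n 2 (.l 0) (.l 0)) (.n 2 (.l 0) (.l 0))) (.n 2 (.l 0) (.l 0))))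
    [(13582204928, 2587885568), (412316860416, 137438953472), (178929008640, 59643002880)] rfl (by decide +kernel)
end

mutual
theorem Z_c0_t6 : CovD 1 gZ [(13582204928, 2587885568), (412316860416, 137438953472), (298215014400, 59643002880)] :=
  covD_E kZ_eq (.n 2 (.n 0 (.n 1 (.n 2 (.l 0) (.l 0)) (.l 0)) (.n 1 (.n 2 (.l 0) (.l 0)) (.l 0))) (.n 1 (.n 1 (.n 2 (.l 0) (.n 0 (.l 0) (.l 0))) (.n 0 (.l 0) (.l 0))) (.n 0 (.l 0) (.l 0))))
    [(13582204928, 2587885568), (412316860416, 137438953472), (298215014400, 59643002880)] rfl (by decide +kernel)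
theorem Z_c0_t8 : CovD 1 gZ [(13582204928, 2587885568), (412316860416, 137438953472), (387679518720, 29821501440)] :=
  covD_E kZ_eq (.n 1 (.n 1 (.n 0 (.n 2 (.l 0) (.l 0)) (.n 2 (.l 0) (.l 0))) (.n 2 (.l 0) (.l 0))) (.n 0 (.l 0) (.l 0)))
    [(13582204928, 2587885568), (412316860416, 137438953472), (387679518720, 29821501440)] rfl (by decide +kernel)
end

mutual
theorem Z_c0_t9 : CovD 1 gZ [(13582204928, 2587885568), (412316860416, 137438953472), (447322521600, 29821501440)] :=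
  covD_E kZ_eq (.n 0 (.n 1 (.n 2 (.n 1 (.l 0) (.l 0)) (.n 2 (.l 0) (.l 0))) (.l 0)) (.n 1 (.n 1 (.n 2 (.l 0) (.l 0)) (.l 0)) (.l 0)))
    [(13582204928, 2587885568), (412316860416, 137438953472), (447322521600, 29821501440)] rfl (by decide +kernel)
theorem Z_c0_t13 : CovD 1 gZ [(13582204928, 2587885568), (412316860416, 137438953472), (506965524480, 29821501440)] :=
  covD_E kZ_eq (.n 0 (.n 1 (.n 2 (.n 2 (.l 0) (.l 0)) (.n 2 (.l 0) (.l 0))) (.l 0)) (.n 1 (.n 1 (.n 2 (.l 0) (.l 0)) (.l 0)) (.l 0)))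
    [(13582204928, 2587885568), (412316860416, 137438953472), (506965524480, 29821501440)] rfl (by decide +kernel)
end

mutual
theorem Z_c0_t14 : CovD 1 gZ [(13582204928, 2587885568), (412316860416, 137438953472), (566608527360, 29821501440)] :=
  covD_E kZ_eq (.n 0 (.n 1 (.n 1 (.n 2 (.l 0) (.l 0)) (.l 0)) (.l 0)) (.n 1 (.n 1 (.n 2 (.l 0) (.l 0)) (.l 0)) (.l 0)))
    [(13582204928, 2587885568), (412316860416, 137438953472), (566608527360, 29821501440)] rfl (by decide +kernel)
theorem Z_c0_t16 : CovD 1 gZ [(13582204928, 2587885568), (412316860416, 137438953472), (626251530240, 29821501440)] :=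
  covD_E kZ_eq (.n 0 (.n 1 (.n 2 (.n 2 (.l 0) (.l 0)) (.n 2 (.l 0) (.l 0))) (.l 0)) (.n 1 (.n 1 (.n 2 (.l 0) (.l 0)) (.l 0)) (.l 0)))
    [(13582204928, 2587885568), (412316860416, 137438953472), (626251530240, 29821501440)] rfl (by decide +kernel)
end

mutual
theorem Z_c0_t17 : CovD 1 gZ [(13582204928, 2587885568), (412316860416, 137438953472), (685894533120, 29821501440)] :=
  covD_E kZ_eq (.n 0 (.n 1 (.n 2 (.n 2 (.l 0) (.l 0)) (.n 2 (.l 0) (.l 0))) (.l 0)) (.n 1 (.n 1 (.n 2 (.l 0) (.l 0)) (.l 0)) (.l 0)))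
    [(13582204928, 2587885568), (412316860416, 137438953472), (685894533120, 29821501440)] rfl (by decide +kernel)
theorem Z_c0_t20 : CovD 1 gZ [(13582204928, 2587885568), (412316860416, 137438953472), (745537536000, 29821501440)] :=
  covD_E kZ_eq (.n 0 (.n 1 (.n 2 (.n 2 (.l 0) (.l 0)) (.n 0 (.l 0) (.l 0))) (.l 0)) (.n 1 (.n 0 (.n 2 (.l 0) (.l 0)) (.n 2 (.l 0) (.l 0))) (.l 0)))
    [(13582204928, 2587885568), (412316860416, 137438953472), (745537536000, 29821501440)] rfl (by decide +kernel)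
end

mutual
theorem Z_c0_t21 : CovD 1 gZ [(13582204928, 2587885568), (412316860416, 137438953472), (805180538880, 29821501440)] :=
  covD_E kZ_eq (.n 0 (.n 1 (.n 2 (.n 2 (.l 0) (.l 0)) (.n 0 (.n 0 (.l 0) (.l 0)) (.l 0))) (.n 0 (.l 0) (.l 0))) (.n 0 (.n 1 (.n 2 (.l 0) (.l 0)) (.l 0)) (.n 1 (.n 2 (.l 0) (.l 0)) (.l 0))))
    [(13582204928, 2587885568), (412316860416, 137438953472), (805180538880, 29821501440)] rfl (by decide +kernel)
theorem Z_c0_t23 : CovD 1 gZ [(13582204928, 2587885568), (412316860416, 137438953472), (864823541760, 29821501440)] :=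
  covD_E kZ_eq (.n 0 (.n 1 (.n 1 (.n 0 (.n 2 (.l 0) (.l 0)) (.n 2 (.l 0) (.l 0))) (.n 2 (.l 0) (.l 0))) (.n 2 (.l 0) (.l 0))) (.n 1 (.n 0 (.n 2 (.l 0) (.l 0)) (.n 2 (.l 0) (.l 0))) (.n 2 (.l 0) (.l 0))))
    [(13582204928, 2587885568), (412316860416, 137438953472), (864823541760, 29821501440)] rfl (by decide +kernel)
end

mutual
theorem Z_c0_t24 : CovD 1 gZ [(13582204928, 2587885568), (412316860416, 137438953472), (924466544640, 29821501440)] :=
  covD_E kZ_eq (.n 0 (.n 1 (.n 0 (.n 1 (.n 2 (.l 0) (.l 0)) (.n 2 (.l 0) (.l 0))) (.n 2 (.l 0) (.l 0))) (.n 2 (.l 0) (.l 0))) (.n 0 (.n 1 (.n 2 (.l 0) (.l 0)) (.l 0)) (.n 1 (.n 2 (.l 0) (.l 0)) (.l 0))))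
    [(13582204928, 2587885568), (412316860416, 137438953472), (924466544640, 29821501440)] rfl (by decide +kernel)
theorem T_c0 : CovD 1 gT [(13582204928, 2587885568), (412316860416, 137438953472)] :=
  covD_E kT_eq (.l 0)
    [(13582204928, 2587885568), (412316860416, 137438953472)] rfl (by decide +kernel)
end

theorem S_c0 : CovD 0 gS [(13582204928, 2587885568), (412316860416, 137438953472)] :=
  covD_E kS_eq (.n 1 (.n 1 (.n 0 (.l 0) (.l 0)) (.l 0)) (.l 0))
    [(13582204928, 2587885568), (412316860416, 137438953472)] rfl (by decide +kernel)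

theorem Z_c0_t2 : CovD 1 gZ [(13582204928, 2587885568), (412316860416, 137438953472), (119286005760, 119286005760)] :=
  covD_split 2 (by decide +kernel) Z_c0_t3 Z_c0_t4

theorem Z_c0_t7 : CovD 1 gZ [(13582204928, 2587885568), (412316860416, 137438953472), (417501020160, 59643002880)] :=
  covD_split 2 (by decide +kernel) Z_c0_t8 Z_c0_t9

theorem Z_c0_t5 : CovD 1 gZ [(13582204928, 2587885568), (412316860416, 137438953472), (357858017280, 119286005760)] :=
  covD_split 2 (by decide +kernel) Z_c0_t6 Z_c0_t7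

theorem Z_c0_t1 : CovD 1 gZ [(13582204928, 2587885568), (412316860416, 137438953472), (238572011520, 238572011520)] :=
  covD_split 2 (by decide +kernel) Z_c0_t2 Z_c0_t5

theorem Z_c0_t12 : CovD 1 gZ [(13582204928, 2587885568), (412316860416, 137438953472), (536787025920, 59643002880)] :=
  covD_split 2 (by decide +kernel) Z_c0_t13 Z_c0_t14

theorem Z_c0_t15 : CovD 1 gZ [(13582204928, 2587885568), (412316860416, 137438953472), (656073031680, 59643002880)] :=
  covD_split 2 (by decide +kernel) Z_c0_t16 Z_c0_t17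

theorem Z_c0_t11 : CovD 1 gZ [(13582204928, 2587885568), (412316860416, 137438953472), (596430028800, 119286005760)] :=
  covD_split 2 (by decide +kernel) Z_c0_t12 Z_c0_t15

theorem Z_c0_t19 : CovD 1 gZ [(13582204928, 2587885568), (412316860416, 137438953472), (775359037440, 59643002880)] :=
  covD_split 2 (by decide +kernel) Z_c0_t20 Z_c0_t21

theorem Z_c0_t22 : CovD 1 gZ [(13582204928, 2587885568), (412316860416, 137438953472), (894645043200, 59643002880)] :=
  covD_split 2 (by decide +kernel) Z_c0_t23 Z_c0_t24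

theorem Z_c0_t18 : CovD 1 gZ [(13582204928, 2587885568), (412316860416, 137438953472), (835002040320, 119286005760)] :=
  covD_split 2 (by decide +kernel) Z_c0_t19 Z_c0_t22

theorem Z_c0_t10 : CovD 1 gZ [(13582204928, 2587885568), (412316860416, 137438953472), (715716034560, 238572011520)] :=
  covD_split 2 (by decide +kernel) Z_c0_t11 Z_c0_t18

theorem Z_c0 : CovD 1 gZ [(13582204928, 2587885568), (412316860416, 137438953472), (477144023040, 477144023040)] :=
  covD_split 2 (by decide +kernel) Z_c0_t1 Z_c0_t10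

end Pool.Agent.helper14.NS.Q68b
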